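import Mathlib

set_option autoImplicit false

namespace Pool.Agent.MP_7f9305_lc.H61

/-- ET0L grammars; symbols are natural numbers. -/
structure ET0L where
  V : Finset ℕ
  T : Finset ℕ
  tables : List (Finset (ℕ × List ℕ))
  w : List ℕ
  T_sub : T ⊆ V
  tables_ne : tables ≠ []
  w_ne : w ≠ []
  w_mem : ∀ X ∈ w, X ∈ V
  rule_mem : ∀ P ∈ tables, ∀ r ∈ P, r.1 ∈ V ∧ ∀ Y ∈ r.2, Y ∈ V
  complete : ∀ P ∈ tables, ∀ X ∈ V, ∃ y, (X, y) ∈ P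

/-- One parallel rewriting step of an ET0L grammar. -/
def ET0L.Step (G : ET0L) (u v : List ℕ) : Prop :=
  u ≠ [] ∧ ∃ P ∈ G.tables, ∃ y : Fin u.length → List ℕ,
    v = (List.ofFn y).flatten ∧ ∀ i : Fin u.length, (u.get i, y i) ∈ P

def ET0L.lang (G : ET0L) : Set (List ℕ) :=
  {x | (∀ a ∈ x, a ∈ G.T) ∧ Relation.ReflTransGen G.Step G.w x}

/-- Left forbidding E0L grammars; a rule is (X, y, W) with W the left forbidding context. -/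
structure LFE0L where
  V : Finset ℕ
  T : Finset ℕ
  P : Finset (ℕ × List ℕ × Finset ℕ)
  w : List ℕ
  T_sub : T ⊆ V
  w_ne : w ≠ []
  w_mem : ∀ X ∈ w, X ∈ V
  rule_mem : ∀ r ∈ P, r.1 ∈ V ∧ (∀ Y ∈ r.2.1, Y ∈ V) ∧ r.2.2 ⊆ V \ T

/-- One parallel rewriting step of a left forbidding E0L grammar. -/
def LFE0L.Step (G : LFE0L) (u v : List ℕ) : Prop :=
  u ≠ [] ∧ ∃ y : Fin u.length → List ℕ,
    v = (List.ofFn y).flatten ∧
      ∀ i : Fin u.length, ∃ W, (u.get i, y i, W) ∈ G.P ∧ ∀ Y ∈ u.take i, Y ∉ W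

def LFE0L.lang (G : LFE0L) : Set (List ℕ) :=
  {x | (∀ a ∈ x, a ∈ G.T) ∧ Relation.ReflTransGen G.Step G.w x}

end Pool.Agent.MP_7f9305_lc.H61
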