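import Pool.Agent.MP_7f9305_lc.H61.Defs

/-!
In an ET0L language a letter that can occur many times can also occur many times with two
occurrences at bounded distance.
-/

set_option autoImplicit false

namespace Pool.Agent.MP_7f9305_lc.H61

inductive Par (P : Finset (ℕ × List ℕ)) : List ℕ → List ℕ → Prop
  | nil : Par P [] []
  | cons {X : ℕ} {y u v : List ℕ} : (X, y) ∈ P → Par P u v → Par P (X :: u) (y ++ v)

theorem par_iff (P : Finset (ℕ × List ℕ)) (u v : List ℕ) :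
    Par P u v ↔ ∃ y : Fin u.length → List ℕ,
      v = (List.ofFn y).flatten ∧ ∀ i : Fin u.length, (u.get i, y i) ∈ P := by
  constructor
  · intro h
    induction h with
    | nil => exact ⟨fun i => i.elim0, by simp, fun i => i.elim0⟩
    | @cons X y u v hX _ ih =>
      obtain ⟨z, rfl, hz⟩ := ih
      refine ⟨Fin.cons y z, ?_, fun i => ?_⟩
      · rw [List.ofFn_succ]
        simp
      · refine Fin.cases ?_ (fun j => ?_) i
        · simpa using hX
        · simpa using hz j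
  · induction u generalizing v with
    | nil =>
      rintro ⟨y, rfl, -⟩
      simpa using Par.nil
    | cons X u ih =>
      rintro ⟨y, rfl, hy⟩
      have := Par.cons (hy 0) (ih _ ⟨fun i => y i.succ, rfl, fun i => by simpa using hy i.succ⟩)
      rw [List.ofFn_succ, List.flatten_cons]
      exact this

theorem Par.append {P : Finset (ℕ × List ℕ)} {u₁ v₁ u₂ v₂ : List ℕ} (h₁ : Par P u₁ v₁)
    (h₂ : Par P u₂ v₂) : Par P (u₁ ++ u₂) (v₁ ++ v₂) := by
  induction h₁ with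
  | nil => simpa
  | cons hX _ ih => rw [List.cons_append, List.append_assoc]; exact Par.cons hX ih

theorem Par.split {P : Finset (ℕ × List ℕ)} {u₁ u₂ v : List ℕ} (h : Par P (u₁ ++ u₂) v) :
    ∃ v₁ v₂, v = v₁ ++ v₂ ∧ Par P u₁ v₁ ∧ Par P u₂ v₂ := by
  induction u₁ generalizing v with
  | nil => exact ⟨[], v, rfl, Par.nil, h⟩
  | cons X u ih =>
    rw [List.cons_append] at h
    cases h with
    | cons hX h' =>
      obtain ⟨v₁, v₂, rfl, h1, h2⟩ := ih h'
      exact ⟨_, v₂, (List.append_assoc _ _ _).symm, Par.cons hX h1, h2⟩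

def D (T : Finset ℕ) : List (Finset (ℕ × List ℕ)) → List ℕ → List ℕ → Prop
  | [], u, x => u = x ∧ ∀ a ∈ x, a ∈ T
  | P :: h, u, x => ∃ v, Par P u v ∧ D T h v x

theorem D.append {T : Finset ℕ} {h : List (Finset (ℕ × List ℕ))} {u₁ x₁ u₂ x₂ : List ℕ}
    (h₁ : D T h u₁ x₁) (h₂ : D T h u₂ x₂) : D T h (u₁ ++ u₂) (x₁ ++ x₂) := by
  induction h generalizing u₁ u₂ with
  | nil =>
    obtain ⟨rfl, a⟩ := h₁
    obtain ⟨rfl, b⟩ := h₂
    refine ⟨rfl, fun c hc => ?_⟩
    rcases List.mem_append.1 hc with hc | hc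
    exacts [a c hc, b c hc]
  | cons P h ih =>
    obtain ⟨v₁, a, b⟩ := h₁
    obtain ⟨v₂, c, d⟩ := h₂
    exact ⟨_, a.append c, ih b d⟩

theorem D.split {T : Finset ℕ} {h : List (Finset (ℕ × List ℕ))} {u₁ u₂ x : List ℕ}
    (hd : D T h (u₁ ++ u₂) x) : ∃ x₁ x₂, x = x₁ ++ x₂ ∧ D T h u₁ x₁ ∧ D T h u₂ x₂ := by
  induction h generalizing u₁ u₂ with
  | nil =>
    obtain ⟨rfl, a⟩ := hd
    exact ⟨u₁, u₂, rfl, ⟨rfl, fun c hc => a c (List.mem_append_left _ hc)⟩,
      ⟨rfl, fun c hc => a c (List.mem_append_right _ hc)⟩⟩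
  | cons P h ih =>
    obtain ⟨v, a, b⟩ := hd
    obtain ⟨v₁, v₂, rfl, c, d⟩ := a.split
    obtain ⟨x₁, x₂, rfl, e, f⟩ := ih b
    exact ⟨x₁, x₂, rfl, ⟨_, c, e⟩, ⟨_, d, f⟩⟩

theorem D.nil_left {T : Finset ℕ} {h : List (Finset (ℕ × List ℕ))} {x : List ℕ}
    (hd : D T h [] x) : x = [] := by
  induction h with
  | nil => exact hd.1.symm
  | cons P h ih =>
    obtain ⟨v, a, b⟩ := hd
    cases a
    exact ih b

theorem D_nil (T : Finset ℕ) (h : List (Finset (ℕ × List ℕ))) : D T h [] [] := by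
  induction h with
  | nil => exact ⟨rfl, by simp⟩
  | cons P h ih => exact ⟨[], Par.nil, ih⟩

theorem D_of_lang (G : ET0L) {u x : List ℕ} (hx : ∀ a ∈ x, a ∈ G.T)
    (h : Relation.ReflTransGen G.Step u x) :
    ∃ h : List (Finset (ℕ × List ℕ)), (∀ P ∈ h, P ∈ G.tables) ∧ D G.T h u x := by
  induction h using Relation.ReflTransGen.head_induction_on with
  | refl => exact ⟨[], by simp, rfl, hx⟩
  | head hs _ ih =>
    obtain ⟨h, hv, hd⟩ := ih
    obtain ⟨-, P, hP, hy⟩ := hs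
    refine ⟨P :: h, ?_, _, (par_iff _ _ _).2 hy, hd⟩
    intro Q hQ
    rcases List.mem_cons.1 hQ with rfl | hQ
    exacts [hP, hv Q hQ]

theorem lang_of_D (G : ET0L) {h : List (Finset (ℕ × List ℕ))} (hv : ∀ P ∈ h, P ∈ G.tables)
    {u x : List ℕ} (hd : D G.T h u x) (hx : x ≠ []) :
    (∀ a ∈ x, a ∈ G.T) ∧ Relation.ReflTransGen G.Step u x := by
  induction h generalizing u with
  | nil =>
    obtain ⟨rfl, a⟩ := hd
    exact ⟨a, Relation.ReflTransGen.refl⟩
  | cons P h ih =>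
    have hu : u ≠ [] := by
      rintro rfl
      exact hx hd.nil_left
    obtain ⟨v, a, b⟩ := hd
    obtain ⟨c, d⟩ := ih (fun Q hQ => hv Q (List.mem_cons_of_mem _ hQ)) b
    exact ⟨c, Relation.ReflTransGen.head ⟨hu, P, hv P List.mem_cons_self, (par_iff _ _ _).1 a⟩ d⟩

theorem Par.length_le {P : Finset (ℕ × List ℕ)} {m : ℕ} (hm : ∀ r ∈ P, r.2.length ≤ m)
    {u v : List ℕ} (h : Par P u v) : v.length ≤ u.length * m := by
  induction h with
  | nil => simp
  | cons hX _ ih =>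
    have := hm _ hX
    simp only [List.length_append, List.length_cons] at this ⊢
    rw [Nat.succ_mul]
    omega

theorem D.length_le {T : Finset ℕ} {m : ℕ} {h : List (Finset (ℕ × List ℕ))}
    (hm : ∀ P ∈ h, ∀ r ∈ P, r.2.length ≤ m) {u x : List ℕ} (hd : D T h u x) :
    x.length ≤ u.length * m ^ h.length := by
  induction h generalizing u with
  | nil => obtain ⟨rfl, -⟩ := hd; simp
  | cons P h ih =>
    obtain ⟨v, a, b⟩ := hd
    have h1 := ih (fun Q hQ => hm Q (List.mem_cons_of_mem _ hQ)) b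
    have h2 := a.length_le (hm P List.mem_cons_self)
    calc x.length ≤ v.length * m ^ h.length := h1
      _ ≤ (u.length * m) * m ^ h.length := Nat.mul_le_mul_right _ h2
      _ = _ := by rw [List.length_cons, pow_succ]; ring

theorem Par.mem_V (G : ET0L) {P : Finset (ℕ × List ℕ)} (hP : P ∈ G.tables) {u v : List ℕ}
    (h : Par P u v) : ∀ Y ∈ v, Y ∈ G.V := by
  induction h with
  | nil => simp
  | cons hX _ ih =>
    intro Y hY
    rcases List.mem_append.1 hY with hY | hY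
    · exact (G.rule_mem P hP _ hX).2 Y hY
    · exact ih Y hY

def tau (G : ET0L) (h : List (Finset (ℕ × List ℕ))) : Set (G.V × Fin 2) :=
  {p | ∃ y, D G.T h [p.1.1] y ∧ p.2.val ≤ y.count 0}

theorem replace (G : ET0L) {h g : List (Finset (ℕ × List ℕ))} (hg : tau G g = tau G h)
    {v z : List ℕ} (hV : ∀ Z ∈ v, Z ∈ G.V)
    (h1 : ∀ Z ∈ v, ∀ y, D G.T h [Z] y → y.count 0 < 2) (hd : D G.T h v z) :
    ∃ z', D G.T g v z' ∧ z.count 0 ≤ z'.count 0 := by
  induction v generalizing z with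
  | nil => exact ⟨[], D_nil _ _, by rw [hd.nil_left]⟩
  | cons Z v ih =>
    obtain ⟨z₁, z₂, rfl, a, b⟩ := D.split (u₁ := [Z]) (u₂ := v) hd
    obtain ⟨z₂', c, d⟩ := ih (fun Y hY => hV Y (List.mem_cons_of_mem _ hY))
      (fun Y hY => h1 Y (List.mem_cons_of_mem _ hY)) b
    have hm : ((⟨Z, hV Z List.mem_cons_self⟩, ⟨z₁.count 0, h1 Z List.mem_cons_self _ a⟩) :
        G.V × Fin 2) ∈ tau G h := ⟨z₁, a, le_rfl⟩
    rw [← hg] at hm
    obtain ⟨z₁', e, f⟩ := hm
    refine ⟨z₁' ++ z₂', D.append (u₁ := [Z]) e c, ?_⟩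
    simp only [List.count_append] at f ⊢
    omega

theorem count_le_length {T : Finset ℕ} {h : List (Finset (ℕ × List ℕ))} {v z : List ℕ}
    (h1 : ∀ Z ∈ v, ∀ y, D T h [Z] y → y.count 0 < 2) (hd : D T h v z) :
    z.count 0 ≤ v.length := by
  induction v generalizing z with
  | nil => rw [hd.nil_left]; simp
  | cons Z v ih =>
    obtain ⟨z₁, z₂, rfl, a, b⟩ := D.split (u₁ := [Z]) (u₂ := v) hd
    have := ih (fun Y hY => h1 Y (List.mem_cons_of_mem _ hY)) b
    have := h1 Z List.mem_cons_self _ a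
    simp only [List.count_append, List.length_cons]
    omega

theorem close_pair (G : ET0L) : ∃ c : ℕ, ∀ x ∈ G.lang, G.w.length < x.count 0 →
    ∃ x' ∈ G.lang, x.count 0 ≤ x'.count 0 ∧
      ∃ p q r, x' = p ++ q ++ r ∧ 2 ≤ q.count 0 ∧ q.length ≤ c := by
  classical
  obtain ⟨m, hm1, hm⟩ : ∃ m : ℕ, 1 ≤ m ∧ ∀ P ∈ G.tables, ∀ r ∈ P, r.2.length ≤ m := by
    refine ⟨(G.tables.toFinset.sup fun P => P.sup fun r => r.2.length) + 1, by omega, ?_⟩
    intro P hP r hr
    have h1 : r.2.length ≤ P.sup fun r => r.2.length := Finset.le_sup (f := fun r : ℕ × List ℕ => r.2.length) hr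
    have h2 : (P.sup fun r => r.2.length) ≤ G.tables.toFinset.sup fun P => P.sup fun r => r.2.length :=
      Finset.le_sup (f := fun P : Finset (ℕ × List ℕ) => P.sup fun r => r.2.length)
        (List.mem_toFinset.2 hP)
    omega
  have hg : ∀ s : Set (G.V × Fin 2), ∃ g : List (Finset (ℕ × List ℕ)), (∀ P ∈ g, P ∈ G.tables) ∧
      ∀ h : List (Finset (ℕ × List ℕ)), (∀ P ∈ h, P ∈ G.tables) → tau G h = s → tau G g = s := by
    intro s
    by_cases hs : ∃ h : List (Finset (ℕ × List ℕ)), (∀ P ∈ h, P ∈ G.tables) ∧ tau G h = s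
    · obtain ⟨h, a, b⟩ := hs
      exact ⟨h, a, fun _ _ _ => b⟩
    · exact ⟨[], by simp, fun h a b => absurd ⟨h, a, b⟩ hs⟩
  choose g hg1 hg2 using hg
  obtain ⟨B, hB⟩ : ∃ B, ∀ s, (g s).length ≤ B := by
    obtain ⟨B, hB⟩ := (Set.finite_range fun s => (g s).length).bddAbove
    exact ⟨B, fun s => hB ⟨s, rfl⟩⟩
  have main : ∀ h : List (Finset (ℕ × List ℕ)), (∀ P ∈ h, P ∈ G.tables) → ∀ u x, D G.T h u x →
      (∃ X ∈ u, ∃ y, D G.T h [X] y ∧ 2 ≤ y.count 0) →
      ∃ h' : List (Finset (ℕ × List ℕ)), (∀ P ∈ h', P ∈ G.tables) ∧ ∃ x', D G.T h' u x' ∧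
        x.count 0 ≤ x'.count 0 ∧
        ∃ p q r, x' = p ++ q ++ r ∧ 2 ≤ q.count 0 ∧ q.length ≤ m ^ (B + 1) := by
    intro h
    induction h with
    | nil =>
      rintro - u x - ⟨X, -, y, ⟨rfl, -⟩, h2⟩
      have := List.count_le_length (a := 0) (l := [X])
      simp only [List.length_singleton] at this
      omega
    | cons P h ih =>
      rintro hv u x hd ⟨X, hX, y, hy, h2⟩
      have hP := hv P List.mem_cons_self
      have hv' : ∀ Q ∈ h, Q ∈ G.tables := fun Q hQ => hv Q (List.mem_cons_of_mem _ hQ)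
      have hvc : ∀ h' : List (Finset (ℕ × List ℕ)), (∀ Q ∈ h', Q ∈ G.tables) →
          ∀ Q ∈ P :: h', Q ∈ G.tables := by
        intro h' a Q hQ
        rcases List.mem_cons.1 hQ with rfl | hQ
        exacts [hP, a Q hQ]
      obtain ⟨u₁, u₂, rfl⟩ := List.append_of_mem hX
      obtain ⟨x₁, x', rfl, d₁, d'⟩ := hd.split
      obtain ⟨x₀, x₂, rfl, d₀, d₂⟩ := D.split (u₁ := [X]) (u₂ := u₂) d'
      obtain ⟨y', hy', h2', h3'⟩ : ∃ y', D G.T (P :: h) [X] y' ∧ 2 ≤ y'.count 0 ∧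
          x₀.count 0 ≤ y'.count 0 := by
        by_cases hx₀ : 2 ≤ x₀.count 0
        · exact ⟨x₀, d₀, hx₀, le_rfl⟩
        · exact ⟨y, hy, h2, by omega⟩
      obtain ⟨v₁, p₁, e₁⟩ := d₁
      obtain ⟨v₀, p₀, e₀⟩ := hy'
      obtain ⟨v₂, p₂, e₂⟩ := d₂
      have pp : Par P (u₁ ++ X :: u₂) (v₁ ++ (v₀ ++ v₂)) := p₁.append (Par.append (u₁ := [X]) p₀ p₂)
      by_cases hcase : ∃ Z ∈ v₁ ++ (v₀ ++ v₂), ∃ y, D G.T h [Z] y ∧ 2 ≤ y.count 0
      · obtain ⟨h', a, x', b, c, d⟩ := ih hv' _ _ (e₁.append (e₀.append e₂)) hcase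
        refine ⟨P :: h', hvc h' a, x', ⟨_, pp, b⟩, le_trans ?_ c, d⟩
        simp only [List.count_append]
        omega
      · push Not at hcase
        have ht := hg2 (tau G h) h hv' rfl
        obtain ⟨z₁, a₁, b₁⟩ := replace G ht (p₁.mem_V G hP)
          (fun Z hZ => hcase Z (by simp [hZ])) e₁
        obtain ⟨z₀, a₀, b₀⟩ := replace G ht (p₀.mem_V G hP)
          (fun Z hZ => hcase Z (by simp [hZ])) e₀
        obtain ⟨z₂, a₂, b₂⟩ := replace G ht (p₂.mem_V G hP)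
          (fun Z hZ => hcase Z (by simp [hZ])) e₂
        refine ⟨P :: g (tau G h), hvc _ (hg1 _), z₁ ++ (z₀ ++ z₂),
          ⟨_, pp, a₁.append (a₀.append a₂)⟩, ?_, z₁, z₀, z₂, (List.append_assoc _ _ _).symm,
          by omega, ?_⟩
        · simp only [List.count_append]
          omega
        · have hD : D G.T (P :: g (tau G h)) [X] z₀ := ⟨_, p₀, a₀⟩
          have := hD.length_le (m := m) (fun Q hQ => hm Q (hvc _ (hg1 _) Q hQ))
          rw [List.length_singleton, one_mul, List.length_cons] at this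
          exact this.trans (Nat.pow_le_pow_right hm1 (Nat.succ_le_succ (hB _)))
  refine ⟨m ^ (B + 1), fun x hx hw => ?_⟩
  obtain ⟨h, hv, hd⟩ := D_of_lang G hx.1 hx.2
  obtain ⟨h', a, x', b, c, d⟩ := main h hv _ _ hd (by
    by_contra hcon
    push Not at hcon
    exact absurd (count_le_length hcon hd) (not_le.2 hw))
  refine ⟨x', lang_of_D G a b ?_, c, d⟩
  rintro rfl
  simp only [List.count_nil] at c
  omega

end Pool.Agent.MP_7f9305_lc.H61
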