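import Pool.Agent.MP_7f9305_lc.H61.Etol

/-!
The left forbidding grammar: a = 0, b = 1, S = 2, A = 3, D = 4, G = 5, E = 6.
-/

set_option autoImplicit false

namespace Pool.Agent.MP_7f9305_lc.H61

def rules : Finset (ℕ × List ℕ × Finset ℕ) :=
  {(2, [2, 2], {3}), (2, [3, 5], {3}), (3, [3], {2, 6}), (3, [4], {2, 6}), (4, [0], {4, 6}),
    (5, [1, 5], ∅), (5, [6], {3, 4}), (6, [1], ∅), (0, [0], ∅), (1, [1], ∅)}

def gram : LFE0L where
  V := {0, 1, 2, 3, 4, 5, 6}
  T := {0, 1}
  P := rules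
  w := [2]
  T_sub := by decide
  w_ne := by decide
  w_mem := by decide
  rule_mem := by decide

inductive Rule (l : List ℕ) : ℕ → List ℕ → Prop
  | s1 : 3 ∉ l → Rule l 2 [2, 2]
  | s2 : 3 ∉ l → Rule l 2 [3, 5]
  | a1 : 2 ∉ l → 6 ∉ l → Rule l 3 [3]
  | a2 : 2 ∉ l → 6 ∉ l → Rule l 3 [4]
  | d : 4 ∉ l → 6 ∉ l → Rule l 4 [0]
  | g1 : Rule l 5 [1, 5]
  | g2 : 3 ∉ l → 4 ∉ l → Rule l 5 [6]
  | e : Rule l 6 [1]
  | t0 : Rule l 0 [0]
  | t1 : Rule l 1 [1]

theorem rule_iff (l : List ℕ) (X : ℕ) (y : List ℕ) :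
    Rule l X y ↔ ∃ W, (X, y, W) ∈ rules ∧ ∀ Y ∈ l, Y ∉ W := by
  constructor
  · intro h
    cases h with
    | s1 h => exact ⟨{3}, by decide, fun Y hY => by simp; rintro rfl; exact h hY⟩
    | s2 h => exact ⟨{3}, by decide, fun Y hY => by simp; rintro rfl; exact h hY⟩
    | a1 h h' => exact ⟨{2, 6}, by decide, fun Y hY => by
        simp; constructor <;> rintro rfl <;> contradiction⟩
    | a2 h h' => exact ⟨{2, 6}, by decide, fun Y hY => by
        simp; constructor <;> rintro rfl <;> contradiction⟩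
    | d h h' => exact ⟨{4, 6}, by decide, fun Y hY => by
        simp; constructor <;> rintro rfl <;> contradiction⟩
    | g1 => exact ⟨∅, by decide, by simp⟩
    | g2 h h' => exact ⟨{3, 4}, by decide, fun Y hY => by
        simp; constructor <;> rintro rfl <;> contradiction⟩
    | e => exact ⟨∅, by decide, by simp⟩
    | t0 => exact ⟨∅, by decide, by simp⟩
    | t1 => exact ⟨∅, by decide, by simp⟩
  · rintro ⟨W, hW, h⟩
    simp only [rules, Finset.mem_insert, Finset.mem_singleton, Prod.mk.injEq] at hW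
    rcases hW with ⟨rfl, rfl, rfl⟩ | ⟨rfl, rfl, rfl⟩ | ⟨rfl, rfl, rfl⟩ | ⟨rfl, rfl, rfl⟩ |
      ⟨rfl, rfl, rfl⟩ | ⟨rfl, rfl, rfl⟩ | ⟨rfl, rfl, rfl⟩ | ⟨rfl, rfl, rfl⟩ | ⟨rfl, rfl, rfl⟩ |
      ⟨rfl, rfl, rfl⟩
    · exact .s1 fun a => h _ a (by decide)
    · exact .s2 fun a => h _ a (by decide)
    · exact .a1 (fun a => h _ a (by decide)) (fun a => h _ a (by decide))
    · exact .a2 (fun a => h _ a (by decide)) (fun a => h _ a (by decide))
    · exact .d (fun a => h _ a (by decide)) (fun a => h _ a (by decide))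
    · exact .g1
    · exact .g2 (fun a => h _ a (by decide)) (fun a => h _ a (by decide))
    · exact .e
    · exact .t0
    · exact .t1

inductive St : List ℕ → List ℕ → List ℕ → Prop
  | nil (l : List ℕ) : St l [] []
  | cons {l : List ℕ} {X : ℕ} {y u v : List ℕ} :
      Rule l X y → St (l ++ [X]) u v → St l (X :: u) (y ++ v)

theorem st_iff (l u v : List ℕ) : St l u v ↔ ∃ y : Fin u.length → List ℕ,
    v = (List.ofFn y).flatten ∧ ∀ i : Fin u.length, Rule (l ++ u.take i) (u.get i) (y i) := by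
  constructor
  · intro h
    induction h with
    | nil => exact ⟨fun i => i.elim0, by simp, fun i => i.elim0⟩
    | @cons l X y u v hX _ ih =>
      obtain ⟨z, rfl, hz⟩ := ih
      refine ⟨Fin.cons y z, ?_, fun i => ?_⟩
      · rw [List.ofFn_succ]
        simp
      · refine Fin.cases ?_ (fun j => ?_) i
        · simpa using hX
        · simpa using hz j
  · induction u generalizing l v with
    | nil =>
      rintro ⟨y, rfl, -⟩
      simpa using St.nil l
    | cons X u ih =>
      rintro ⟨y, rfl, hy⟩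
      have h0 : Rule l X (y 0) := by simpa using hy 0
      have := St.cons h0 (ih _ _ ⟨fun i => y i.succ, rfl, fun i => by simpa using hy i.succ⟩)
      rw [List.ofFn_succ, List.flatten_cons]
      exact this

theorem step_iff (u v : List ℕ) : gram.Step u v ↔ u ≠ [] ∧ St [] u v := by
  rw [st_iff]
  simp only [LFE0L.Step, gram, List.nil_append, rule_iff]

theorem St.append {l u₁ v₁ u₂ v₂ : List ℕ} (h₁ : St l u₁ v₁) (h₂ : St (l ++ u₁) u₂ v₂) :
    St l (u₁ ++ u₂) (v₁ ++ v₂) := by
  induction h₁ with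
  | nil => simpa using h₂
  | cons hX _ ih =>
    rw [List.cons_append, List.append_assoc]
    exact St.cons hX (ih (by simpa using h₂))

/-- the gap predicate: `c` more filler symbols are needed before the next head -/
def Gap (k : ℕ) : ℕ → List ℕ → Prop
  | _, [] => True
  | c, X :: u => ((X = 0 ∨ X = 3 ∨ X = 4) ∧ c = 0 ∧ Gap k k u) ∨
      ((X = 1 ∨ X = 5 ∨ X = 6) ∧ Gap k (c - 1) u)

theorem Gap.mono {k c c' : ℕ} {u : List ℕ} (h : Gap k c u) (hc : c' ≤ c) : Gap k c' u := by
  induction u generalizing c c' with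
  | nil => trivial
  | cons X u ih =>
    rcases h with ⟨a, b, d⟩ | ⟨a, b⟩
    · exact Or.inl ⟨a, by omega, d⟩
    · exact Or.inr ⟨a, ih b (by omega)⟩

theorem Gap.step {k : ℕ} {l u v : List ℕ} (hs : St l u v) {c : ℕ} (h : Gap k c u) :
    Gap k c v := by
  induction hs generalizing c with
  | nil => trivial
  | cons hX _ ih =>
    rcases h with ⟨a, b, d⟩ | ⟨a, b⟩
    · cases hX <;> first | omega | exact Or.inl ⟨by omega, b, ih d⟩
    · cases hX <;> first
        | omega
        | exact Or.inr ⟨by omega, ih b⟩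
        | exact Or.inr ⟨by omega, Or.inr ⟨by omega, (ih b).mono (by omega)⟩⟩

theorem Gap.not_two {k c : ℕ} {u : List ℕ} (h : Gap k c u) : 2 ∉ u := by
  induction u generalizing c with
  | nil => simp
  | cons X u ih =>
    rcases h with ⟨a, -, d⟩ | ⟨a, b⟩
    · simp only [List.mem_cons, not_or]; exact ⟨by omega, ih d⟩
    · simp only [List.mem_cons, not_or]; exact ⟨by omega, ih b⟩

theorem Gap.drop {k c : ℕ} {p u : List ℕ} (h : Gap k c (p ++ u)) : ∃ c', Gap k c' u := by
  induction p generalizing c with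
  | nil => exact ⟨c, h⟩
  | cons X p ih =>
    rcases h with ⟨-, -, d⟩ | ⟨-, b⟩
    exacts [ih d, ih b]

theorem Gap.one {k c : ℕ} {q r : List ℕ} (h : Gap k c (q ++ r)) (h1 : 1 ≤ q.count 0) :
    c ≤ q.length := by
  induction q generalizing c with
  | nil => simp at h1
  | cons X q ih =>
    rcases h with ⟨-, b, -⟩ | ⟨a, b⟩
    · omega
    · rw [List.count_cons_of_ne (by omega)] at h1
      have := ih b h1
      simp only [List.length_cons]
      omega

theorem Gap.two {k c : ℕ} {q r : List ℕ} (h : Gap k c (q ++ r)) (h2 : 2 ≤ q.count 0) :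
    k ≤ q.length := by
  induction q generalizing c with
  | nil => simp at h2
  | cons X q ih =>
    simp only [List.length_cons]
    rcases h with ⟨-, -, d⟩ | ⟨a, b⟩
    · have : 1 ≤ q.count 0 := by
        have := List.count_cons (a := 0) (b := X) (l := q)
        split_ifs at this <;> omega
      have := Gap.one d this
      omega
    · rw [List.count_cons_of_ne (by omega)] at h2
      have := ih b h2
      omega

inductive PA (t : ℕ) : List ℕ → Prop
  | nil : PA t []
  | cons {h : ℕ} {u : List ℕ} : (h = 0 ∨ h = 3 ∨ h = 4) → PA t u →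
      PA t (h :: (List.replicate t 1 ++ 5 :: u))

theorem gap_replicate {k : ℕ} (t c : ℕ) {u : List ℕ} (h : Gap k (c - t) u) :
    Gap k c (List.replicate t 1 ++ u) := by
  induction t generalizing c with
  | zero => simpa using h
  | succ t ih =>
    rw [List.replicate_succ, List.cons_append]
    exact Or.inr ⟨by omega, ih _ (h.mono (by omega))⟩

theorem PA.gap {t : ℕ} {u : List ℕ} (h : PA t u) : Gap (t + 1) 0 u := by
  induction h with
  | nil => trivial
  | cons a _ ih =>
    exact Or.inl ⟨a, rfl, gap_replicate _ _ (Or.inr ⟨by omega, ih.mono (by omega)⟩)⟩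

theorem St.rep {t : ℕ} {l u v : List ℕ} (h : St l (List.replicate t 1 ++ u) v) :
    ∃ v', v = List.replicate t 1 ++ v' ∧ St (l ++ List.replicate t 1) u v' := by
  induction t generalizing l v with
  | zero => exact ⟨v, rfl, by simpa using h⟩
  | succ t ih =>
    rw [List.replicate_succ, List.cons_append] at h
    cases h with
    | cons hX h' =>
      cases hX
      obtain ⟨v', rfl, h''⟩ := ih h'
      exact ⟨v', by simp [List.replicate_succ], by simpa [List.replicate_succ] using h''⟩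

theorem PA.step {t : ℕ} {u : List ℕ} (h : PA t u) {l v : List ℕ} (hs : St l u v) (h6 : 6 ∉ v) :
    PA (t + 1) v := by
  induction h generalizing l v with
  | nil => cases hs; exact PA.nil
  | @cons X u a _ ih =>
    cases hs with
    | @cons _ _ y _ v' hX h' =>
      obtain ⟨v'', rfl, h''⟩ := h'.rep
      cases h'' with
      | @cons _ _ y' _ w hY h3 =>
        have h6w : 6 ∉ w := fun hh => h6 (by simp [hh])
        obtain ⟨Z, rfl, hZ⟩ : ∃ Z, y = [Z] ∧ (Z = 0 ∨ Z = 3 ∨ Z = 4) := by
          cases hX <;> first | omega | exact ⟨_, rfl, by omega⟩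
        cases hY with
        | g1 =>
          have := PA.cons hZ (ih h3 h6w)
          rw [List.replicate_succ'] at this
          simpa using this
        | g2 => exact absurd (by simp) h6

theorem St.count {l u v : List ℕ} (h : St l u v) :
    v.count 0 ≤ u.count 0 + (if 4 ∈ l then 0 else 1) ∧ (4 ∉ u → v.count 0 = u.count 0) := by
  induction h with
  | nil => simp
  | @cons l X y u v hX _ ih =>
    obtain ⟨i1, i2⟩ := ih
    simp only [List.mem_append, List.mem_singleton] at i1
    cases hX with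
    | d a b =>
      simp at i1
      simp [a]
      omega
    | _ =>
      simp at i1
      simp
      exact ⟨by omega, i2⟩

def Ok : Prop → List ℕ → Prop
  | _, [] => True
  | f, X :: u => (X = 6 → ¬ f) ∧ Ok (f ∨ X = 3 ∨ X = 4) u

theorem Ok.mono {f f' : Prop} {u : List ℕ} (h : Ok f u) (hf : f' → f) : Ok f' u := by
  induction u generalizing f f' with
  | nil => trivial
  | cons X u ih => exact ⟨fun a b => h.1 a (hf b), ih h.2 (Or.imp_left hf)⟩

theorem St.ok {l u v : List ℕ} (h : St l u v) (h2 : 2 ∉ u) : Ok (3 ∈ l ∨ 4 ∈ l) v := by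
  induction h with
  | nil => trivial
  | @cons l X y u v hX _ ih =>
    simp only [List.mem_cons, not_or] at h2
    have := ih h2.2
    simp only [List.mem_append, List.mem_singleton] at this
    cases hX with
    | s1 => exact absurd rfl h2.1
    | s2 => exact absurd rfl h2.1
    | g1 => exact ⟨by omega, by omega, this.mono (by simp)⟩
    | g2 a b => exact ⟨fun _ => by tauto, this.mono (by simp)⟩
    | _ => exact ⟨by omega, this.mono (by simp)⟩

theorem St.six {l u v : List ℕ} (h : St l u v) (h6 : 6 ∈ l) : 3 ∉ u ∧ 4 ∉ u := by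
  induction h with
  | nil => simp
  | cons hX _ ih =>
    have := ih (List.mem_append_left _ h6)
    cases hX <;> first | contradiction | simpa using this

theorem St.clean {l u v : List ℕ} (h : St l u v) {f : Prop} (ho : Ok f u) (h6 : 6 ∈ u) :
    ¬ f ∧ 3 ∉ u ∧ 4 ∉ u := by
  induction h generalizing f with
  | nil => simp at h6
  | @cons l X y u v hX h' ih =>
    by_cases hX6 : X = 6
    · subst hX6
      have := h'.six (by simp)
      exact ⟨ho.1 rfl, by simpa using this.1, by simpa using this.2⟩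
    · have h6' : 6 ∈ u := (List.mem_cons.1 h6).resolve_left (Ne.symm hX6)
      obtain ⟨a, b, c⟩ := ih ho.2 h6'
      simp only [not_or] at a
      simp only [List.mem_cons, not_or]
      exact ⟨a.1, ⟨Ne.symm a.2.1, b⟩, ⟨Ne.symm a.2.2, c⟩⟩

theorem St.no34 {l u v : List ℕ} (h : St l u v) (h2 : 2 ∉ u) (h3 : 3 ∉ u) : 3 ∉ v ∧ 4 ∉ v := by
  induction h with
  | nil => simp
  | cons hX _ ih =>
    simp only [List.mem_cons, not_or] at h2 h3
    have := ih h2.2 h3.2
    cases hX <;> first | exact absurd rfl h2.1 | exact absurd rfl h3.1 | simpa using this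

theorem St.dead {l u v : List ℕ} (h : St l u v) :
    (3 ∈ l → 2 ∉ u) ∧ (2 ∈ l → 3 ∉ u) ∧ ¬ (2 ∈ u ∧ 3 ∈ u) := by
  induction h with
  | nil => simp
  | cons hX _ ih =>
    simp only [List.mem_append, List.mem_singleton] at ih
    cases hX <;> simp at ih ⊢ <;> tauto

theorem St.allS {l u v : List ℕ} (h : St l u v) (hu : ∀ X ∈ u, X = 2) :
    (∀ X ∈ v, X = 2) ∨ (2 ∈ v ∧ 3 ∈ v) ∨ (PA 0 v ∧ v.count 0 = 0 ∧ (v = [] ∨ 3 ∈ v)) := by
  induction h with
  | nil => simp
  | @cons l X y u v hX _ ih =>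
    obtain rfl := hu X List.mem_cons_self
    rcases ih (fun Y hY => hu Y (List.mem_cons_of_mem _ hY)) with a | ⟨a, b⟩ | ⟨a, b, c⟩
    · cases hX with
      | s1 => left; simpa using a
      | s2 =>
        cases v with
        | nil => exact Or.inr (Or.inr ⟨PA.cons (t := 0) (by omega) PA.nil, by simp, by simp⟩)
        | cons Y v =>
          obtain rfl := a Y List.mem_cons_self
          exact Or.inr (Or.inl (by simp))
    · exact Or.inr (Or.inl ⟨List.mem_append_right _ a, List.mem_append_right _ b⟩)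
    · cases hX with
      | s1 =>
        rcases c with rfl | c
        · left; simp
        · exact Or.inr (Or.inl (by simp [c]))
      | s2 => exact Or.inr (Or.inr ⟨PA.cons (t := 0) (by omega) a, by simpa using b, by simp⟩)

def Inv (u : List ℕ) : Prop :=
  (∀ X ∈ u, X = 2) ∨ (2 ∈ u ∧ 3 ∈ u) ∨ (∃ t, PA t u ∧ u.count 0 ≤ t) ∨
    (∃ k, Gap k 0 u ∧ u.count 0 ≤ k ∧ 6 ∈ u ∧ Ok False u) ∨
    (∃ k, Gap k 0 u ∧ u.count 0 ≤ k ∧ 3 ∉ u ∧ 4 ∉ u)

theorem Inv.step {u v : List ℕ} (h : Inv u) (hs : St [] u v) : Inv v := by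
  have last : (∃ k, Gap k 0 u ∧ u.count 0 ≤ k ∧ 3 ∉ u ∧ 4 ∉ u) → Inv v := by
    rintro ⟨k, a, b, c, d⟩
    exact Or.inr (Or.inr (Or.inr (Or.inr ⟨k, a.step hs, by rw [hs.count.2 d]; exact b,
      hs.no34 a.not_two c⟩)))
  rcases h with h | h | ⟨t, a, b⟩ | ⟨k, a, b, c, d⟩ | h
  · rcases hs.allS h with a | a | ⟨a, b, -⟩
    · exact Or.inl a
    · exact Or.inr (Or.inl a)
    · exact Or.inr (Or.inr (Or.inl ⟨0, a, b.le⟩))
  · exact absurd h hs.dead.2.2
  · have hc : v.count 0 ≤ t + 1 := by
      have := hs.count.1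
      simp only [List.not_mem_nil, if_false] at this
      omega
    by_cases h6 : 6 ∈ v
    · exact Or.inr (Or.inr (Or.inr (Or.inl ⟨t + 1, a.gap.step hs, hc, h6,
        (hs.ok a.gap.not_two).mono False.elim⟩)))
    · exact Or.inr (Or.inr (Or.inl ⟨t + 1, a.step hs h6, hc⟩))
  · exact last ⟨k, a, b, (hs.clean d c).2⟩
  · exact last h

theorem inv_of {x : List ℕ} (h : Relation.ReflTransGen gram.Step [2] x) : Inv x := by
  induction h with
  | refl => left; simp
  | tail _ hs ih => exact ih.step ((step_iff _ _).1 hs).2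

theorem rare {x : List ℕ} (hx : x ∈ gram.lang) {p q r : List ℕ} (e : x = p ++ q ++ r)
    (h2 : 2 ≤ q.count 0) : x.count 0 ≤ q.length := by
  have hT : ∀ a ∈ x, a = 0 ∨ a = 1 := fun a ha => by simpa [gram] using hx.1 a ha
  have h0 : 0 ∈ x := by
    rw [e]
    have : 0 ∈ q := List.count_pos_iff.1 (by omega)
    simp [this]
  rcases inv_of hx.2 with h | h | ⟨t, a, b⟩ | ⟨k, a, b, c, d⟩ | ⟨k, a, b, -⟩
  · exact absurd (h 0 h0) (by omega)
  · exact absurd (hT 2 h.1) (by omega)
  · cases a with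
    | nil => simp at h0
    | cons => exact absurd (hT 5 (by simp)) (by omega)
  · exact absurd (hT 6 c) (by omega)
  · rw [e, List.append_assoc] at a
    obtain ⟨c', a'⟩ := a.drop
    exact b.trans (a'.two h2)

theorem st_hom (φ : ℕ → List ℕ) (S : List ℕ) (l u : List ℕ) (hl : ∀ Y ∈ l, Y ∈ S)
    (U : List ℕ) (hUS : ∀ Y ∈ U, Y ∈ S) (hu : ∀ Y ∈ u, Y ∈ U)
    (hφ : ∀ l', (∀ Y ∈ l', Y ∈ S) → ∀ X ∈ U, Rule l' X (φ X)) : St l u (u.flatMap φ) := by
  induction u generalizing l with
  | nil => exact St.nil l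
  | cons X u ih =>
    rw [List.flatMap_cons]
    have hX := hu X List.mem_cons_self
    refine St.cons (hφ l hl X hX) (ih _ ?_ fun Y hY => hu Y (List.mem_cons_of_mem _ hY))
    intro Y hY
    rcases List.mem_append.1 hY with hY | hY
    · exact hl Y hY
    · rw [List.mem_singleton.1 hY]; exact hUS X hX

def idle (X : ℕ) : List ℕ := if X = 5 then [1, 5] else [X]

theorem idle_st {l u : List ℕ} (hl : ∀ Y ∈ l, Y ∈ [0, 1, 3, 4, 5]) (hu : ∀ Y ∈ u, Y ∈ [0, 1, 3, 5]) :
    St l u (u.flatMap idle) := by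
  refine st_hom idle _ l u hl _ (by decide) hu fun l' hl' X hX => ?_
  have h2 : 2 ∉ l' := fun h => absurd (hl' _ h) (by decide)
  have h6 : 6 ∉ l' := fun h => absurd (hl' _ h) (by decide)
  simp only [List.mem_cons, List.not_mem_nil, or_false] at hX
  rcases hX with rfl | rfl | rfl | rfl
  exacts [.t0, .t1, .a1 h2 h6, .g1]

theorem idle_mem {u : List ℕ} (hu : ∀ Y ∈ u, Y ∈ [0, 1, 3, 5]) :
    ∀ Y ∈ u.flatMap idle, Y ∈ [0, 1, 3, 5] := by
  intro Y hY
  obtain ⟨X, hX, hY⟩ := List.mem_flatMap.1 hY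
  have := hu X hX
  unfold idle at hY
  split_ifs at hY with h <;> simp at hY this ⊢ <;> omega

theorem idle_count (u : List ℕ) (a : ℕ) (ha : a ≠ 1) : (u.flatMap idle).count a = u.count a := by
  induction u with
  | nil => rfl
  | cons X u ih =>
    rw [List.flatMap_cons, List.count_append, ih]
    unfold idle
    split_ifs with h
    · subst h; simp [List.count_cons, Ne.symm ha]; omega
    · simp [List.count_cons]; omega

theorem process (j : ℕ) : ∀ u : List ℕ, (∀ Y ∈ u, Y ∈ [0, 1, 3, 5]) → u.count 3 = j →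
    ∃ u', Relation.ReflTransGen gram.Step u u' ∧ (∀ Y ∈ u', Y ∈ [0, 1, 5]) ∧
      u'.count 0 = u.count 0 + j := by
  induction j with
  | zero =>
    intro u hu h3
    refine ⟨u, .refl, fun Y hY => ?_, rfl⟩
    have h := hu Y hY
    have : Y ≠ 3 := by rintro rfl; exact List.count_eq_zero.1 h3 hY
    simp at h ⊢; omega
  | succ j ih =>
    intro u hu h3
    obtain ⟨u₁, u₂, rfl⟩ := List.append_of_mem (List.count_pos_iff.1 (by omega) : 3 ∈ u)
    have h₁ : ∀ Y ∈ u₁, Y ∈ [0, 1, 3, 5] := fun Y hY => hu Y (by simp [hY])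
    have h₂ : ∀ Y ∈ u₂, Y ∈ [0, 1, 3, 5] := fun Y hY => hu Y (by simp [hY])
    have ext : ∀ (w : List ℕ) (Z : ℕ), (∀ Y ∈ w, Y ∈ [0, 1, 3, 5]) → Z ∈ [0, 1, 3, 4, 5] →
        ∀ Y ∈ [] ++ w ++ [Z], Y ∈ [0, 1, 3, 4, 5] := by
      intro w Z hw hZ Y hY
      simp only [List.nil_append, List.mem_append, List.mem_singleton] at hY
      rcases hY with hY | rfl
      · have := hw Y hY; simp at this ⊢; omega
      · exact hZ
    have nm : ∀ (w : List ℕ) (Z : ℕ), (∀ Y ∈ w, Y ∈ [0, 1, 3, 5]) → Z ∉ [0, 1, 3, 5] →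
        Z ∉ [] ++ w := fun w Z hw hZ h => hZ (hw Z (by simpa using h))
    have s1 : St [] (u₁ ++ 3 :: u₂) (u₁.flatMap idle ++ ([4] ++ u₂.flatMap idle)) :=
      (idle_st (by simp) h₁).append (St.cons (.a2 (nm _ _ h₁ (by decide)) (nm _ _ h₁ (by decide)))
        (idle_st (ext _ _ h₁ (by decide)) h₂))
    have g₁ := idle_mem h₁
    have g₂ := idle_mem h₂
    have s2 : St [] (u₁.flatMap idle ++ 4 :: u₂.flatMap idle)
        ((u₁.flatMap idle).flatMap idle ++ ([0] ++ (u₂.flatMap idle).flatMap idle)) :=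
      (idle_st (by simp) g₁).append (St.cons (.d (nm _ _ g₁ (by decide)) (nm _ _ g₁ (by decide)))
        (idle_st (ext _ _ g₁ (by decide)) g₂))
    obtain ⟨u', a, b, c⟩ := ih
      ((u₁.flatMap idle).flatMap idle ++ ([0] ++ (u₂.flatMap idle).flatMap idle)) (by
        intro Y hY
        simp only [List.mem_append, List.mem_singleton] at hY
        rcases hY with hY | rfl | hY
        exacts [idle_mem g₁ Y hY, by decide, idle_mem g₂ Y hY]) (by
        simp only [List.count_append, idle_count _ 3 (by decide), List.count_cons] at h3 ⊢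
        simp at h3 ⊢
        omega)
    refine ⟨u', .head ((step_iff _ _).2 ⟨by simp, s1⟩) (.head ((step_iff _ _).2 ⟨by simp, s2⟩) a),
      b, ?_⟩
    rw [c]
    simp only [List.count_append, idle_count _ 0 (by decide), List.count_cons]
    simp
    omega

theorem doubling (k : ℕ) : ∃ n, k ≤ n ∧ 1 ≤ n ∧
    Relation.ReflTransGen gram.Step [2] (List.replicate n 2) := by
  induction k with
  | zero => exact ⟨1, by omega, le_rfl, .refl⟩
  | succ k ih =>
    obtain ⟨n, a, b, c⟩ := ih
    have s := st_hom (fun _ => [2, 2]) [2] [] (List.replicate n 2) (by simp) [2] (by simp)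
      (fun Y hY => by simp [List.eq_of_mem_replicate hY]) (fun l' hl' X hX => by
        rw [List.mem_singleton.1 hX]
        exact .s1 fun h => absurd (hl' _ h) (by decide))
    have e : (List.replicate n 2).flatMap (fun _ => [2, 2]) = List.replicate (n * 2) 2 := by
      rw [List.flatMap_replicate]
      exact List.flatten_replicate_replicate (n := n) (m := 2) (a := 2)
    rw [e] at s
    refine ⟨n * 2, by omega, by omega, c.tail ((step_iff _ _).2 ⟨?_, s⟩)⟩
    simp; omega

theorem frequent (k : ℕ) : ∃ x ∈ gram.lang, k ≤ x.count 0 := by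
  obtain ⟨n, a, b, c⟩ := doubling k
  have s := st_hom (fun _ => [3, 5]) [2] [] (List.replicate n 2) (by simp) [2] (by simp)
    (fun Y hY => by simp [List.eq_of_mem_replicate hY]) (fun l' hl' X hX => by
      rw [List.mem_singleton.1 hX]
      exact .s2 fun h => absurd (hl' _ h) (by decide))
  have hc3 : ∀ m, ((List.replicate m 2).flatMap fun _ => [3, 5]).count 3 = m := by
    intro m
    induction m with
    | zero => rfl
    | succ m ih => rw [List.replicate_succ, List.flatMap_cons, List.count_append, ih]; simp; omega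
  obtain ⟨u', d, e, f⟩ := process n _ (fun Y hY => by
    obtain ⟨X, -, hY⟩ := List.mem_flatMap.1 hY
    simp at hY ⊢; omega) (hc3 n)
  let φ : ℕ → List ℕ := fun X => if X = 5 then [6] else [X]
  let ψ : ℕ → List ℕ := fun X => if X = 6 then [1] else [X]
  have s1 := st_hom φ [0, 1, 5] [] u' (by simp) [0, 1, 5] (by simp) e (fun l' hl' X hX => by
    have h3 : 3 ∉ l' := fun h => absurd (hl' _ h) (by decide)
    have h4 : 4 ∉ l' := fun h => absurd (hl' _ h) (by decide)
    simp only [List.mem_cons, List.not_mem_nil, or_false] at hX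
    rcases hX with rfl | rfl | rfl
    exacts [.t0, .t1, .g2 h3 h4])
  have e1 : ∀ Y ∈ u'.flatMap φ, Y ∈ [0, 1, 6] := by
    intro Y hY
    obtain ⟨X, hX, hY⟩ := List.mem_flatMap.1 hY
    have := e X hX
    simp only [φ] at hY
    split_ifs at hY with h <;> simp at hY this ⊢ <;> omega
  have s2 := st_hom ψ [0, 1, 6] [] (u'.flatMap φ) (by simp) [0, 1, 6] (by simp) e1
    (fun l' hl' X hX => by
      simp only [List.mem_cons, List.not_mem_nil, or_false] at hX
      rcases hX with rfl | rfl | rfl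
      exacts [.t0, .t1, .e])
  have c1 := s1.count.2 (fun h => absurd (e _ h) (by decide))
  have c2 := s2.count.2 (fun h => absurd (e1 _ h) (by decide))
  have n1 : u' ≠ [] := by rintro rfl; simp at f; omega
  have n2 : u'.flatMap φ ≠ [] := by
    intro h; rw [h] at c1; simp only [List.count_nil] at c1; omega
  refine ⟨(u'.flatMap φ).flatMap ψ, ⟨fun Y hY => ?_, ?_⟩, by omega⟩
  · obtain ⟨X, hX, hY⟩ := List.mem_flatMap.1 hY
    have := e1 X hX
    simp only [ψ] at hY
    split_ifs at hY with h <;> simp [gram] at hY this ⊢ <;> omega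
  · refine (((c.tail ((step_iff _ _).2 ⟨?_, s⟩)).trans d).tail ((step_iff _ _).2 ⟨n1, s1⟩)).tail
      ((step_iff _ _).2 ⟨n2, s2⟩)
    simp; omega

theorem not_etol (H : ET0L) : H.lang ≠ gram.lang := by
  intro h
  obtain ⟨c, hc⟩ := close_pair H
  obtain ⟨x, hx, hk⟩ := frequent (H.w.length + c + 1)
  obtain ⟨x', hx', a, p, q, r, e, b, d⟩ := hc x (h ▸ hx) (by omega)
  have := rare (h ▸ hx') e b
  omega

end Pool.Agent.MP_7f9305_lc.H61
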